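import Pool.Agent.Helper99.SI.StT

set_option autoImplicit false

/-!
# Project SI, module E3: the bimodule of differentials
-/

namespace Pool.Agent.Helper24.SI

open Pool.Agent.Helper99.SI
open Pool.Agent.Helper92 Pool.Agent.Helper92.LV
open scoped TensorProduct

section gen

variable {L : Type} [Ring L] [Algebra ℂ L]

/-- outer action of a and b on the tensor square -/
noncomputable def act (a b : L) : L ⊗[ℂ] L →ₗ[ℂ] L ⊗[ℂ] L :=
  TensorProduct.map (LinearMap.mulLeft ℂ a) (LinearMap.mulRight ℂ b)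

theorem act_tmul (a b p q : L) : act a b (p ⊗ₜ[ℂ] q) = (a * p) ⊗ₜ[ℂ] (q * b) := rfl

/-- the differential -/
noncomputable def dl (y : L) : L ⊗[ℂ] L := 1 ⊗ₜ[ℂ] y - y ⊗ₜ[ℂ] 1

theorem dl_add (y z : L) : dl (y + z) = dl y + dl z := by
  unfold dl
  rw [TensorProduct.tmul_add, TensorProduct.add_tmul]
  abel

theorem dl_mul (y z : L) : dl (y * z) = act 1 z (dl y) + act y 1 (dl z) := by
  unfold dl
  rw [map_sub, map_sub, act_tmul, act_tmul, act_tmul, act_tmul, one_mul, one_mul, one_mul, mul_one,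
    mul_one]
  abel

theorem dl_alg (c : ℂ) : dl (algebraMap ℂ L c) = 0 := by
  unfold dl
  rw [Algebra.algebraMap_eq_smul_one, TensorProduct.tmul_smul, TensorProduct.smul_tmul',
    sub_self]

variable {V E : Type} [Fintype V] [Fintype E] [DecidableEq V] [DecidableEq E] {G : LV.Graph V E}

/-- inner action of the edges -/
noncomputable def RR (F : Fam ℂ G L) : L ⊗[ℂ] L →ₗ[ℂ] L ⊗[ℂ] L :=
  ∑ x, TensorProduct.map (LinearMap.mulRight ℂ (F.e x)) (LinearMap.mulLeft ℂ (F.g x))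

theorem RR_tmul (F : Fam ℂ G L) (p q : L) :
    RR F (p ⊗ₜ[ℂ] q) = ∑ x, (p * F.e x) ⊗ₜ[ℂ] (F.g x * q) := by
  unfold RR
  rw [LinearMap.sum_apply]
  rfl

theorem RR_act (F : Fam ℂ G L) (a b : L) (u : L ⊗[ℂ] L) : RR F (act a b u) = act a b (RR F u) := by
  refine TensorProduct.induction_on u ?_ ?_ ?_
  · simp
  · intro p q
    rw [act_tmul, RR_tmul, RR_tmul, map_sum]
    refine Finset.sum_congr rfl fun x _ => ?_
    rw [act_tmul, mul_assoc, mul_assoc]
  · intro u v hu hv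
    simp only [map_add, hu, hv]

/-- the map p ⊗ q to p ξ q -/
noncomputable def MM (F : Fam ℂ G L) : L ⊗[ℂ] L →ₗ[ℂ] L ⊗[ℂ] L := LinearMap.id - RR F

theorem MM_apply (F : Fam ℂ G L) (u : L ⊗[ℂ] L) : MM F u = u - RR F u := rfl

theorem MM_act (F : Fam ℂ G L) (a b : L) (u : L ⊗[ℂ] L) : MM F (act a b u) = act a b (MM F u) := by
  rw [MM_apply, MM_apply, RR_act, map_sub]

theorem mem_act (F : Fam ℂ G L) (a b : L) {u : L ⊗[ℂ] L} (hu : u ∈ LinearMap.range (MM F)) :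
    act a b u ∈ LinearMap.range (MM F) := by
  obtain ⟨w, rfl⟩ := hu
  exact ⟨act a b w, MM_act F a b w⟩

theorem dl_v (F : Fam ℂ G L) (a : V) : dl (F.v a) ∈ LinearMap.range (MM F) := by
  refine ⟨dl (F.v a), ?_⟩
  have h : RR F (dl (F.v a)) = 0 := by
    unfold dl
    rw [map_sub, RR_tmul, RR_tmul, sub_eq_zero]
    refine Finset.sum_congr rfl fun x _ => ?_
    rw [one_mul, mul_one]
    have h1 : F.g x * F.v a = if G.s x = a then F.g x else 0 := by
      rw [← F.gs x, mul_assoc, F.vv]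
      split_ifs <;> simp
    have h2 : F.v a * F.e x = if G.s x = a then F.e x else 0 := by
      rw [← F.se x, ← mul_assoc, F.vv]
      by_cases hx : G.s x = a
      · rw [if_pos hx.symm, if_pos hx, hx]
      · rw [if_neg (fun h => hx h.symm), if_neg hx, zero_mul]
    rw [h1, h2]
    by_cases hx : G.s x = a
    · rw [if_pos hx, if_pos hx]
    · rw [if_neg hx, if_neg hx, TensorProduct.tmul_zero, TensorProduct.zero_tmul]
  rw [MM_apply, h, sub_zero]

theorem dl_e (F : Fam ℂ G L) (x : E) : dl (F.e x) ∈ LinearMap.range (MM F) := by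
  have h1 : MM F (1 ⊗ₜ[ℂ] F.e x) = 1 ⊗ₜ[ℂ] F.e x - F.e x ⊗ₜ[ℂ] F.v (G.r x) := by
    rw [MM_apply, RR_tmul, Finset.sum_eq_single x]
    · rw [one_mul, F.ck1, if_pos rfl]
    · intro y _ hy
      rw [F.ck1, if_neg hy, TensorProduct.tmul_zero]
    · intro hx
      exact absurd (Finset.mem_univ x) hx
  have h2 : dl (F.e x) = MM F (1 ⊗ₜ[ℂ] F.e x) + act (F.e x) 1 (dl (F.v (G.r x))) := by
    rw [h1]
    unfold dl
    rw [map_sub, act_tmul, act_tmul, mul_one, mul_one, mul_one, F.er]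
    abel
  rw [h2]
  exact Submodule.add_mem _ ⟨_, rfl⟩ (mem_act F _ _ (dl_v F _))

theorem dl_g (F : Fam ℂ G L) (x : E) : dl (F.g x) ∈ LinearMap.range (MM F) := by
  have h1 : MM F (F.g x ⊗ₜ[ℂ] 1) = F.g x ⊗ₜ[ℂ] 1 - F.v (G.r x) ⊗ₜ[ℂ] F.g x := by
    rw [MM_apply, RR_tmul, Finset.sum_eq_single x]
    · rw [mul_one, F.ck1, if_pos rfl]
    · intro y _ hy
      rw [F.ck1, if_neg (Ne.symm hy), TensorProduct.zero_tmul]
    · intro hx
      exact absurd (Finset.mem_univ x) hx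
  have h2 : dl (F.g x) = act 1 (F.g x) (dl (F.v (G.r x))) - MM F (F.g x ⊗ₜ[ℂ] 1) := by
    rw [h1]
    unfold dl
    rw [map_sub, act_tmul, act_tmul, one_mul, one_mul, one_mul, F.rg]
    abel
  rw [h2]
  exact Submodule.sub_mem _ (mem_act F _ _ (dl_v F _)) ⟨_, rfl⟩

theorem dl_mem (F : Fam ℂ G L) (hF : F.Gens) (y : L) : dl y ∈ LinearMap.range (MM F) := by
  have hy : y ∈ Algebra.adjoin ℂ (Set.range F.v ∪ Set.range F.e ∪ Set.range F.g) := by
    rw [show Algebra.adjoin ℂ (Set.range F.v ∪ Set.range F.e ∪ Set.range F.g) = ⊤ from hF]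
    exact Algebra.mem_top
  induction hy using Algebra.adjoin_induction with
  | mem z hz =>
    rcases hz with (⟨a, rfl⟩ | ⟨x, rfl⟩) | ⟨x, rfl⟩
    · exact dl_v F a
    · exact dl_e F x
    · exact dl_g F x
  | algebraMap c =>
    rw [dl_alg]
    exact Submodule.zero_mem _
  | add z w _ _ hz hw =>
    rw [dl_add]
    exact Submodule.add_mem _ hz hw
  | mul z w _ _ hz hw =>
    rw [dl_mul]
    exact Submodule.add_mem _ (mem_act F _ _ hz) (mem_act F _ _ hw)

theorem sum_eg (F : Fam ℂ G L) (hG : ∀ a : V, ∃ x : E, G.s x = a) : ∑ x, F.e x * F.g x = 1 := by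
  rw [← F.one, ← Finset.sum_fiberwise Finset.univ G.s]
  exact Finset.sum_congr rfl fun a _ => (F.ck2 a (hG a)).symm

theorem xi_mem {V' E' : Type} [Fintype V'] [Fintype E'] [DecidableEq V'] [DecidableEq E']
    {G' : LV.Graph V' E'} (F : Fam ℂ G L) (F' : Fam ℂ G' L)
    (hG : ∀ a : V, ∃ x : E, G.s x = a) (hF' : F'.Gens) :
    MM F (1 ⊗ₜ[ℂ] 1) ∈ LinearMap.range (MM F') := by
  have h : MM F (1 ⊗ₜ[ℂ] 1) = - ∑ x, act (F.e x) 1 (dl (F.g x)) := by
    have h1 : ∀ x, act (F.e x) 1 (dl (F.g x)) =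
        F.e x ⊗ₜ[ℂ] F.g x - (F.e x * F.g x) ⊗ₜ[ℂ] (1 : L) := by
      intro x
      unfold dl
      rw [map_sub, act_tmul, act_tmul, mul_one, mul_one, mul_one]
    rw [Finset.sum_congr rfl fun x _ => h1 x, Finset.sum_sub_distrib, ← TensorProduct.sum_tmul,
      sum_eg F hG, MM_apply, RR_tmul, neg_sub]
    congr 1
    refine Finset.sum_congr rfl fun x _ => ?_
    rw [one_mul, mul_one]
  rw [h]
  exact Submodule.neg_mem _ (Submodule.sum_mem _ fun x _ => mem_act F' _ _ (dl_mem F' hF' _))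

end gen

section grad

variable {L : Type} [Ring L] [Algebra ℂ L] [StarRing L] [StarModule ℂ L]
variable {V E : Type} [Fintype V] [Fintype E] [DecidableEq V] [DecidableEq E] {G : LV.Graph V E}

/-- the grading of the left factor -/
noncomputable def pj (B : ZGr L) (j : ℤ) : L ⊗[ℂ] L →ₗ[ℂ] L ⊗[ℂ] L := LinearMap.rTensor L (B.p j)

theorem pj_tmul (B : ZGr L) (j : ℤ) (p q : L) : pj B j (p ⊗ₜ[ℂ] q) = (B.p j p) ⊗ₜ[ℂ] q := rfl

theorem p_hom (B : ZGr L) {f : L} (hf : B.p 1 f = f) (k : ℤ) : B.p k f = if k = 1 then f else 0 := by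
  have h := B.pp k 1 f
  rw [hf] at h
  exact h

theorem p_mul_e (h0 : StA0) (B : ZGr L) {f : L} (hf : B.p 1 f = f) (j : ℤ) (y : L) :
    B.p (j + 1) (y * f) = B.p j y * f := by
  rw [(h0 L B).1, finsum_eq_single _ j]
  · rw [p_hom B hf, if_pos (by ring)]
  · intro i hi
    rw [p_hom B hf, if_neg (by intro h; apply hi; linarith), mul_zero]

theorem pj_RR (h0 : StA0) (B : ZGr L) (F : Fam ℂ G L) (hF : ∀ x, B.p 1 (F.e x) = F.e x) (j : ℤ)
    (u : L ⊗[ℂ] L) : pj B (j + 1) (RR F u) = RR F (pj B j u) := by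
  refine TensorProduct.induction_on u ?_ ?_ ?_
  · simp
  · intro p q
    rw [pj_tmul, RR_tmul, RR_tmul, map_sum]
    refine Finset.sum_congr rfl fun x _ => ?_
    rw [pj_tmul, p_mul_e h0 B (hF x)]
  · intro u v hu hv
    simp only [map_add, hu, hv]

theorem pj_fin (B : ZGr L) (u : L ⊗[ℂ] L) : ∃ s : Finset ℤ, (∀ j, j ∉ s → pj B j u = 0) ∧
    ∀ s' : Finset ℤ, s ⊆ s' → ∑ j ∈ s', pj B j u = u := by
  refine TensorProduct.induction_on u ?_ ?_ ?_
  · exact ⟨∅, fun j _ => map_zero _, fun s' _ => by simp⟩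
  · intro p q
    refine ⟨(B.fin p).toFinset, fun j hj => ?_, fun s' hs' => ?_⟩
    · rw [Set.Finite.mem_toFinset] at hj
      have hj' : B.p j p = 0 := by
        by_contra h
        exact hj h
      rw [pj_tmul, hj', TensorProduct.zero_tmul]
    · rw [Finset.sum_congr rfl fun j _ => pj_tmul B j p q, ← TensorProduct.sum_tmul]
      congr 1
      have h := B.sum p
      rw [finsum_eq_sum_of_support_subset _ (s := s')] at h
      · exact h
      · intro j hj
        exact hs' ((B.fin p).mem_toFinset.mpr hj)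
  · rintro u v ⟨s, hs1, hs2⟩ ⟨s', hs1', hs2'⟩
    refine ⟨s ∪ s', fun j hj => ?_, fun t ht => ?_⟩
    · rw [Finset.mem_union, not_or] at hj
      rw [map_add, hs1 j hj.1, hs1' j hj.2, add_zero]
    · simp only [map_add]
      rw [Finset.sum_add_distrib, hs2 t (Finset.union_subset_left ht),
        hs2' t (Finset.union_subset_right ht)]

theorem MM_inj (h0 : StA0) (B : ZGr L) (F : Fam ℂ G L) (hF : ∀ x, B.p 1 (F.e x) = F.e x) :
    Function.Injective (MM F) := by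
  rw [injective_iff_map_eq_zero]
  intro u hu
  rw [MM_apply, sub_eq_zero] at hu
  obtain ⟨s, hs1, hs2⟩ := pj_fin B u
  obtain ⟨N, hN⟩ := s.bddBelow
  have hstep : ∀ j, pj B j u = 0 → pj B (j + 1) u = 0 := by
    intro j hj
    rw [hu, pj_RR h0 B F hF, hj, map_zero]
  have hall : ∀ k : ℕ, pj B (N - 1 + k) u = 0 := by
    intro k
    induction k with
    | zero =>
      apply hs1
      intro hmem
      have := hN hmem
      push_cast at this
      linarith
    | succ k ih =>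
      have := hstep _ ih
      rw [add_assoc] at this
      exact_mod_cast this
  have hz : ∀ j, pj B j u = 0 := by
    intro j
    by_cases hj : N ≤ j
    · have := hall (j - N + 1).toNat
      rwa [show N - 1 + ((j - N + 1).toNat : ℤ) = j by omega] at this
    · apply hs1
      intro hmem
      exact hj (hN hmem)
  rw [← hs2 s (Finset.Subset.refl s)]
  exact Finset.sum_eq_zero fun j _ => hz j

/-- the evaluation p ⊗ q to q y g(p) -/
noncomputable def Th (g : L →ₗ[ℂ] L) (y : L) : L ⊗[ℂ] L →ₗ[ℂ] L :=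
  TensorProduct.lift (LinearMap.mk₂ ℂ (fun p q => q * y * g p)
    (fun p p' q => by rw [map_add, mul_add])
    (fun c p q => by rw [map_smul, mul_smul_comm])
    (fun p q q' => by rw [add_mul, add_mul])
    (fun c p q => by rw [smul_mul_assoc, smul_mul_assoc]))

theorem Th_tmul (g : L →ₗ[ℂ] L) (y p q : L) : Th g y (p ⊗ₜ[ℂ] q) = q * y * g p := rfl

theorem Th_act (g : L →ₗ[ℂ] L) (hg : ∀ a b, g (a * b) = g a * g b) (y a b : L) (u : L ⊗[ℂ] L) :
    Th g y (act a b u) = Th g (b * y * g a) u := by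
  refine TensorProduct.induction_on u ?_ ?_ ?_
  · simp
  · intro p q
    rw [act_tmul, Th_tmul, Th_tmul, hg]
    simp only [mul_assoc]
  · intro u v hu hv
    simp only [map_add, hu, hv]

theorem Th_RR (g : L →ₗ[ℂ] L) (hg : ∀ a b, g (a * b) = g a * g b) (y : L) (F : Fam ℂ G L) (t : ℂ)
    (ht : ∀ x, g (F.e x) = t • F.e x) (u : L ⊗[ℂ] L) :
    Th g y (RR F u) = t • ∑ x, F.g x * (Th g y u * F.e x) := by
  refine TensorProduct.induction_on u ?_ ?_ ?_
  · simp
  · intro p q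
    rw [RR_tmul, map_sum, Finset.smul_sum]
    refine Finset.sum_congr rfl fun x _ => ?_
    rw [Th_tmul, Th_tmul, hg, ht, mul_smul_comm, mul_smul_comm]
    simp only [mul_assoc]
  · intro u v hu hv
    simp only [map_add, hu, hv, add_mul, mul_add, Finset.sum_add_distrib, smul_add]

/-- two solutions are inverse to each other -/
theorem inv_of {V' E' : Type} [Fintype V'] [Fintype E'] [DecidableEq V'] [DecidableEq E']
    {G' : LV.Graph V' E'} (F : Fam ℂ G L) (F' : Fam ℂ G' L) (hinj : Function.Injective (MM F))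
    {m : ℕ} (a b : Fin m → L) (u' : L ⊗[ℂ] L)
    (hu : MM F' (∑ l, a l ⊗ₜ[ℂ] b l) = MM F (1 ⊗ₜ[ℂ] 1))
    (hu' : MM F u' = MM F' (1 ⊗ₜ[ℂ] 1)) : ∑ l, act (a l) (b l) u' = 1 ⊗ₜ[ℂ] 1 := by
  apply hinj
  rw [map_sum]
  have h1 : ∀ l, MM F (act (a l) (b l) u') = MM F' (act (a l) (b l) (1 ⊗ₜ[ℂ] 1)) := by
    intro l
    rw [MM_act, MM_act, hu']
  rw [Finset.sum_congr rfl fun l _ => h1 l, ← map_sum, ← hu]
  congr 1
  refine Finset.sum_congr rfl fun l _ => ?_
  rw [act_tmul, mul_one, one_mul]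

theorem comp_eq (g : L →ₗ[ℂ] L) (hg : ∀ a b, g (a * b) = g a * g b) (hg1 : g 1 = 1) {m m' : ℕ}
    (a b : Fin m → L) (a' b' : Fin m' → L)
    (h : ∑ l, act (a l) (b l) (∑ i, a' i ⊗ₜ[ℂ] b' i) = 1 ⊗ₜ[ℂ] 1) (y : L) :
    ∑ i, b' i * (∑ l, b l * y * g (a l)) * g (a' i) = y := by
  have h2 := congrArg (Th g y) h
  rw [map_sum, Th_tmul, hg1, one_mul, mul_one] at h2
  refine Eq.trans ?_ h2
  have h3 : ∀ l, Th g y (act (a l) (b l) (∑ i, a' i ⊗ₜ[ℂ] b' i)) =
      ∑ i, b' i * (b l * y * g (a l)) * g (a' i) := by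
    intro l
    rw [Th_act g hg, map_sum]
    rfl
  rw [Finset.sum_congr rfl fun l _ => h3 l, Finset.sum_comm]
  refine Finset.sum_congr rfl fun i _ => ?_
  rw [Finset.mul_sum, Finset.sum_mul]

end grad

theorem hE3 (h1 : StA0) (_ : StT1) : StE3 := by
  intro n V E _ _ _ _ G L _ _ _ _ T hn hG
  have hE : ∀ a : Unit, ∃ x : Fin n, (rose n).s x = a := fun a => ⟨⟨0, hn⟩, rfl⟩
  obtain ⟨u, hu⟩ := xi_mem T.fE T.f hE T.fgen
  obtain ⟨u', hu'⟩ := xi_mem T.f T.fE hG T.Egen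
  obtain ⟨m, a, b, hab⟩ := TensorProduct.exists_sum_tmul_eq u
  obtain ⟨m', a', b', hab'⟩ := TensorProduct.exists_sum_tmul_eq u'
  have hinj1 := MM_inj h1 T.g T.fE T.ge
  have hinj2 := MM_inj h1 T.b T.f T.be
  rw [hab] at hu
  rw [hab'] at hu'
  have e1 := inv_of T.fE T.f hinj1 a b _ hu hu'
  have e2 := inv_of T.f T.fE hinj2 a' b' _ hu' hu
  refine ⟨m, m', a, b, a', b', fun t y ht => ?_⟩
  obtain ⟨_, hmul, hone, _⟩ := h1 L T.b
  have hg := fun x z => hmul t x z ht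
  refine ⟨comp_eq _ hg (hone t) a b a' b' e1 y, comp_eq _ hg (hone t) a' b' a b e2 y, ?_⟩
  have hf : ∀ x, T.b.ev t (T.f.e x) = t • T.f.e x := by
    intro x
    show (∑ᶠ j : ℤ, t ^ j • T.b.p j (T.f.e x)) = t • T.f.e x
    rw [finsum_eq_single _ 1]
    · rw [T.be, zpow_one]
    · intro j hj
      rw [p_hom T.b (T.be x), if_neg hj, smul_zero]
  have h3 := congrArg (Th (T.b.ev t) y) hu
  rw [MM_apply, MM_apply, map_sub, map_sub, Th_RR _ hg y T.f t hf, map_sum, Th_tmul, hone,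
    one_mul, mul_one, RR_tmul, map_sum] at h3
  have h4 : (∑ x, Th (T.b.ev t) y ((1 * T.fE.e x) ⊗ₜ[ℂ] (T.fE.g x * 1))) =
      ∑ i, star (T.fE.e i) * y * T.b.ev t (T.fE.e i) := by
    refine Finset.sum_congr rfl fun i _ => ?_
    rw [Th_tmul, one_mul, mul_one, T.Eg]
  rw [h4] at h3
  rw [← h3]
  have h5 : (∑ l, Th (T.b.ev t) y (a l ⊗ₜ[ℂ] b l)) = ∑ l, b l * y * T.b.ev t (a l) := rfl
  rw [h5]
  congr 2
  unfold Two.PhiG
  rw [LinearMap.sum_apply]
  refine Finset.sum_congr rfl fun x _ => ?_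
  rw [T.fg]
  rfl

end Pool.Agent.Helper24.SI
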